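import Pool.Agent.W142.TF.Stm
import Pool.Agent.W352.FN.Bohr

/-!
# TF-NET: the translates of a trigonometric polynomial are totally bounded
-/

set_option autoImplicit false
open Filter Topology Finset
open scoped BoundedContinuousFunction

namespace Pool.Agent.W863.TF

open Pool.Agent.W27.FB Pool.Agent.W634.BQ Pool.Agent.W505.BQ Pool.Agent.W142.TF

theorem finite_net (T : Finset Circle) {ρ : ℝ} (hρ : 0 < ρ) :
    ∃ F : Finset ℤ, ∀ t : ℤ, ∃ s ∈ F, t - s ∈ Bo T ρ := by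
  classical
  let φ : ℤ → (T → ℂ) := fun t θ => (((θ : Circle) ^ t : Circle) : ℂ)
  have h1 : TotallyBounded (Set.range φ) := by
    refine (isCompact_closedBall (0 : T → ℂ) 1).totallyBounded.subset ?_
    rintro _ ⟨t, rfl⟩
    rw [mem_closedBall_zero_iff, pi_norm_le_iff_of_nonneg zero_le_one]
    intro θ
    exact (Circle.norm_coe _).le
  obtain ⟨S, hS, hfin, hcov⟩ := h1.exists_subset (Metric.dist_mem_uniformity hρ)
  have hS2 : ∀ y ∈ S, ∃ t, φ t = y := fun y hy => hS hy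
  choose! g hg using hS2
  refine ⟨hfin.toFinset.image g, fun t => ?_⟩
  have h2 := hcov ⟨t, rfl⟩
  simp only [Set.mem_iUnion, Set.mem_ofPred_eq, exists_prop] at h2
  obtain ⟨y, hy, hd⟩ := h2
  refine ⟨g y, Finset.mem_image.2 ⟨y, hfin.mem_toFinset.2 hy, rfl⟩, ?_⟩
  intro θ hθ
  rw [← hg y hy, dist_pi_lt_iff hρ] at hd
  have h3 := hd ⟨θ, hθ⟩
  rw [dist_eq_norm] at h3
  have h4 : (((θ ^ t : Circle) : ℂ)) - ((θ ^ (g y) : Circle) : ℂ) =
      ((θ ^ (g y) : Circle) : ℂ) * (((θ ^ (t - g y) : Circle) : ℂ) - 1) := by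
    rw [mul_sub, mul_one, ← Circle.coe_mul, ← zpow_add]
    congr 3
    ring
  have h5 : ‖(((θ ^ t : Circle) : ℂ)) - ((θ ^ (g y) : Circle) : ℂ)‖ < ρ := h3
  rw [h4, norm_mul, Circle.norm_coe, one_mul] at h5
  exact h5

theorem net : S_net := by
  intro Q hQ δ hδ
  obtain ⟨T, ρ, hρ, H⟩ := Pool.Agent.W352.FN.bohr Q hQ δ hδ
  obtain ⟨F, hF⟩ := finite_net T hρ
  refine ⟨F, fun t => ?_⟩
  obtain ⟨s, hs, h⟩ := hF t
  refine ⟨s, hs, fun n => ?_⟩
  have h1 := H (t - s) h (n + s)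
  rwa [show n + s + (t - s) = n + t by ring] at h1

end Pool.Agent.W863.TF
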